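import Pool.Agent.W798.SP.Stm

/-!
# SPX: transfer from positive reals to all reals and to the integers
-/

set_option autoImplicit false
set_option linter.unusedSectionVars false

open Finset
open scoped Classical Pointwise

namespace Pool.Agent.W919.SP

open Pool.Agent.W798.SP

lemma rhs_mono (A B : Finset ℝ) (h1 : (B + B).card ≤ (A + A).card)
    (h2 : (B * B).card ≤ (A * A).card) :
    ((B + B).card : ℝ) ^ 123 * ((B * B).card : ℝ) ^ 79 ≤
      ((A + A).card : ℝ) ^ 123 * ((A * A).card : ℝ) ^ 79 := by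
  have h1' : ((B + B).card : ℝ) ≤ ((A + A).card : ℝ) := by exact_mod_cast h1
  have h2' : ((B * B).card : ℝ) ≤ ((A * A).card : ℝ) := by exact_mod_cast h2
  gcongr

/-- a set of positive reals with at least a third of the elements and not larger sums and products -/
lemma posPart (A : Finset ℝ) (hA : 3 ≤ A.card) : ∃ B : Finset ℝ, B.Nonempty ∧ (∀ x ∈ B, 0 < x) ∧
    A.card ≤ 3 * B.card ∧ (B + B).card ≤ (A + A).card ∧ (B * B).card ≤ (A * A).card := by
  set P := A.filter (fun x => 0 < x) with hP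
  set F := A.filter (fun x => x < 0) with hF
  have hcov : A ⊆ (P ∪ F) ∪ {0} := by
    intro x hx
    rw [mem_union, mem_union, mem_singleton, hP, hF, mem_filter, mem_filter]
    rcases lt_trichotomy x 0 with h | h | h
    · exact Or.inl (Or.inr ⟨hx, h⟩)
    · exact Or.inr h
    · exact Or.inl (Or.inl ⟨hx, h⟩)
  have hc : A.card ≤ P.card + F.card + 1 := by
    have h1 := card_le_card hcov
    have h2 := card_union_le (P ∪ F) ({0} : Finset ℝ)
    have h3 := card_union_le P F
    rw [card_singleton] at h2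
    omega
  have hPA : P ⊆ A := filter_subset _ _
  have hFA : F ⊆ A := filter_subset _ _
  rcases le_total F.card P.card with h | h
  · refine ⟨P, card_pos.1 (by omega), fun x hx => (mem_filter.1 hx).2, by omega,
      card_le_card (add_subset_add hPA hPA), card_le_card (mul_subset_mul hPA hPA)⟩
  · refine ⟨-F, ?_, ?_, ?_, ?_, ?_⟩
    · rw [← card_pos, card_neg]
      omega
    · intro x hx
      rw [mem_neg] at hx
      obtain ⟨y, hy, rfl⟩ := hx
      have := (mem_filter.1 hy).2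
      linarith
    · rw [card_neg]
      omega
    · have e : -F + -F = -(F + F) := (neg_add_rev F F).symm
      rw [e, card_neg]
      exact card_le_card (add_subset_add hFA hFA)
    · have e : -F * -F = F * F := neg_mul_neg F F
      rw [e]
      exact card_le_card (mul_subset_mul hFA hFA)

theorem tRE (h : S_PO) : S_RE := by
  intro δ hδ
  have hδ' : 0 < min δ 1 := lt_min hδ one_pos
  obtain ⟨c, hc, hP⟩ := h (min δ 1) hδ'
  have he0 : 0 ≤ 270 - min δ 1 := by
    have := min_le_right δ 1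
    linarith
  have he1 : 270 - min δ 1 ≤ 270 := by linarith
  have he2 : 270 - δ ≤ 270 - min δ 1 := by
    have := min_le_left δ 1
    linarith
  set e : ℝ := 270 - min δ 1 with he
  refine ⟨min c 1 / 3 ^ (270:ℝ), by positivity, ?_⟩
  intro A hA
  have hA1 : 1 ≤ A.card := hA.card_pos
  have hN1 : (1:ℝ) ≤ A.card := by exact_mod_cast hA1
  have hcn : 0 ≤ min c 1 / 3 ^ (270:ℝ) := by positivity
  have hstep : min c 1 / 3 ^ (270:ℝ) * (A.card : ℝ) ^ (270 - δ) ≤
      min c 1 / 3 ^ (270:ℝ) * (A.card : ℝ) ^ e :=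
    mul_le_mul_of_nonneg_left (Real.rpow_le_rpow_of_exponent_le hN1 he2) hcn
  refine hstep.trans ?_
  have h3pos : (0:ℝ) < 3 ^ (270:ℝ) := by positivity
  rcases Nat.lt_or_ge A.card 3 with h3 | h3
  · -- small sets
    have hN3 : (A.card : ℝ) ≤ 3 := by exact_mod_cast h3.le
    have h1 : (A.card : ℝ) ^ e ≤ 3 ^ (270:ℝ) := by
      calc (A.card : ℝ) ^ e ≤ 3 ^ e := Real.rpow_le_rpow (by linarith) hN3 he0
        _ ≤ 3 ^ (270:ℝ) := Real.rpow_le_rpow_of_exponent_le (by norm_num) he1
    have h2 : min c 1 / 3 ^ (270:ℝ) * (A.card : ℝ) ^ e ≤ 1 := by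
      rw [div_mul_eq_mul_div, div_le_one h3pos]
      calc min c 1 * (A.card : ℝ) ^ e ≤ 1 * (A.card : ℝ) ^ e :=
            mul_le_mul_of_nonneg_right (min_le_right _ _) (by positivity)
        _ ≤ 3 ^ (270:ℝ) := by rw [one_mul]; exact h1
    have h4 : (1:ℝ) ≤ ((A + A).card : ℝ) := by
      exact_mod_cast (hA.add hA).card_pos
    have h5 : (1:ℝ) ≤ ((A * A).card : ℝ) := by
      exact_mod_cast (hA.mul hA).card_pos
    have h6 : (1:ℝ) ≤ ((A + A).card : ℝ) ^ 123 * ((A * A).card : ℝ) ^ 79 :=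
      one_le_mul_of_one_le_of_one_le (one_le_pow₀ h4) (one_le_pow₀ h5)
    linarith
  · obtain ⟨B, hB0, hBp, hB3, hBs, hBm⟩ := posPart A h3
    have h7 := hP B hB0 hBp
    have h8 := rhs_mono A B hBs hBm
    refine le_trans ?_ (h7.trans h8)
    have hB3' : (A.card : ℝ) ≤ 3 * B.card := by exact_mod_cast hB3
    have h9 : (A.card : ℝ) ^ e ≤ 3 ^ (270:ℝ) * (B.card : ℝ) ^ e := by
      calc (A.card : ℝ) ^ e ≤ (3 * (B.card : ℝ)) ^ e :=
            Real.rpow_le_rpow (by linarith) hB3' he0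
        _ = 3 ^ e * (B.card : ℝ) ^ e := Real.mul_rpow (by norm_num) (by positivity)
        _ ≤ 3 ^ (270:ℝ) * (B.card : ℝ) ^ e :=
            mul_le_mul_of_nonneg_right (Real.rpow_le_rpow_of_exponent_le (by norm_num) he1)
              (by positivity)
    calc min c 1 / 3 ^ (270:ℝ) * (A.card : ℝ) ^ e
        ≤ min c 1 / 3 ^ (270:ℝ) * (3 ^ (270:ℝ) * (B.card : ℝ) ^ e) :=
          mul_le_mul_of_nonneg_left h9 hcn
      _ = min c 1 * (B.card : ℝ) ^ e := by
          field_simp
      _ ≤ c * (B.card : ℝ) ^ e :=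
          mul_le_mul_of_nonneg_right (min_le_left _ _) (by positivity)

theorem tZZ (h : S_RE) : S_ZZ := by
  intro κ hκ
  have hδ : 0 < 202 * (1 / 303 - κ) := by linarith
  obtain ⟨c, hc, hR⟩ := h (202 * (1 / 303 - κ)) hδ
  have hexp : 270 - 202 * (1 / 303 - κ) = (4 / 3 + κ) * ((202 : ℕ) : ℝ) := by
    push_cast
    ring
  rw [hexp] at hR
  refine ⟨c ^ ((1:ℝ) / 202), by positivity, ?_⟩
  intro A hA
  set f : ℤ →+* ℝ := Int.castRingHom ℝ with hf
  have hinj : Function.Injective f := Int.cast_injective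
  have h1 := hR (A.image f) (hA.image f)
  rw [← Finset.image_add f, ← Finset.image_mul f, card_image_of_injective _ hinj,
    card_image_of_injective _ hinj, card_image_of_injective _ hinj] at h1
  have hN0 : (0:ℝ) ≤ A.card := Nat.cast_nonneg _
  set m : ℝ := max ((A + A).card : ℝ) ((A * A).card : ℝ) with hm
  have hm0 : 0 ≤ m := le_trans (Nat.cast_nonneg _) (le_max_left _ _)
  have h2 : ((A + A).card : ℝ) ^ 123 * ((A * A).card : ℝ) ^ 79 ≤ m ^ 202 := by
    calc ((A + A).card : ℝ) ^ 123 * ((A * A).card : ℝ) ^ 79 ≤ m ^ 123 * m ^ 79 := by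
          have a1 : ((A + A).card : ℝ) ≤ m := le_max_left _ _
          have a2 : ((A * A).card : ℝ) ≤ m := le_max_right _ _
          gcongr
      _ = m ^ 202 := by rw [← pow_add]
  have h3 : (c ^ ((1:ℝ) / 202) * (A.card : ℝ) ^ (4 / 3 + κ)) ^ 202 ≤ m ^ 202 := by
    refine le_trans (le_of_eq ?_) (h1.trans h2)
    rw [mul_pow, ← Real.rpow_natCast (c ^ ((1:ℝ) / 202)) 202, ← Real.rpow_mul hc.le,
      ← Real.rpow_natCast ((A.card : ℝ) ^ (4 / 3 + κ)) 202, ← Real.rpow_mul hN0]
    have : (1:ℝ) / 202 * ((202:ℕ) : ℝ) = 1 := by norm_num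
    rw [this, Real.rpow_one]
  exact le_of_pow_le_pow_left₀ (by norm_num) hm0 h3

end Pool.Agent.W919.SP
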